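import Pool.Agent.Lib.MP_2d96d7_co.Defs
import Pool.Agent.Lib.MP_2d96d7_co.Split
import Pool.Agent.Lib.MP_2d96d7_co.Final

/-!
Graph-codes: polynomial decay for almost all graphs with an even number of edges.
-/

namespace Pool.Agent.Results.MP_2d96d7_co.AlmostAll

open Pool.Agent.Lib.MP_2d96d7_co

/-- For almost all graphs `H` with a positive even number of edges, `d_H(n)` tends to zero
polynomially fast: for every `ε > 0` and all sufficiently large `k`, all but at most
`ε * 2 ^ binom(k, 2)` of the graphs `H` on `k` labelled vertices having a positive even number of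
edges satisfy `d_H(n) ≤ (binom(k, 2) / n) ^ (1 / 2 ^ (k - 1))` for all `n ≥ 1`. -/
theorem result (ε : ℝ) (hε : 0 < ε) : ∃ K : ℕ, ∀ k : ℕ, K ≤ k →
    ({H : SimpleGraph (Fin k) |
      H.edgeSet.Nonempty ∧ Even H.edgeSet.ncard ∧ ¬ PowerDecay H}.ncard : ℝ) ≤
        ε * 2 ^ (k.choose 2) := by
  obtain ⟨K, hK⟩ := almost_all ε hε
  refine ⟨K, fun k hk => le_trans ?_ (hK k hk)⟩
  have hsub : {H : SimpleGraph (Fin k) |
      H.edgeSet.Nonempty ∧ Even H.edgeSet.ncard ∧ ¬ PowerDecay H} ⊆
      {H : SimpleGraph (Fin k) | Even H.edgeSet.ncard ∧ ¬ EvenlySplittable H Set.univ} := by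
    rintro H ⟨hne, he, hp⟩
    refine ⟨he, fun hs => hp ?_⟩
    have hV : Nonempty (Fin k) := by
      obtain ⟨z, _⟩ := hne
      induction z with
      | _ u v => exact ⟨u⟩
    have hH : H ≠ ⊥ := by
      rintro rfl
      simp at hne
    exact hs.powerDecay hH
  exact_mod_cast Set.ncard_le_ncard hsub (Set.toFinite _)

end Pool.Agent.Results.MP_2d96d7_co.AlmostAll
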