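import Pool.Agent.Lib.MP_2d96d7_co.Defs
import Pool.Agent.Lib.MP_2d96d7_co.Split
import Pool.Agent.Lib.MP_2d96d7_co.Greedy

/-!
Graph-codes: polynomial decay for all graphs with an even number of edges that do not contain a
complete graph on four vertices.
-/

namespace Pool.Agent.Results.MP_2d96d7_co.K4Free

open Pool.Agent.Lib.MP_2d96d7_co

/-- Let `H` be a graph on `w` vertices with a positive even number of edges and without a complete
graph on four vertices. Then for every `n ≥ 1` every `H`-code on `[n]` contains at most the fraction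
`(binom(w, 2) / n) ^ (1 / 2 ^ (w - 1))` of all graphs on `[n]`. In particular `d_H(n)` tends to
zero, and it does so at least as fast as a negative power of `n`. -/
theorem result (V : Type) [Fintype V] (H : SimpleGraph V) (hne : H.edgeSet.Nonempty)
    (heven : Even H.edgeSet.ncard) (hfree : H.CliqueFree 4) (n : ℕ) (hn : 1 ≤ n)
    (F : Finset (SimpleGraph (Fin n)))
    (hF : ∀ G ∈ F, ∀ G' ∈ F, G ≠ G' → ∀ f : V ↪ Fin n, (G \ G') ⊔ (G' \ G) ≠ H.map f) :
    (F.card : ℝ) ≤ (((Fintype.card V).choose 2 : ℝ) / n) ^ ((1 : ℝ) / 2 ^ (Fintype.card V - 1)) *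
      2 ^ (n.choose 2) := by
  have hV : Nonempty V := by
    obtain ⟨z, _⟩ := hne
    induction z with
    | _ u v => exact ⟨u⟩
  have hH : H ≠ ⊥ := by
    rintro rfl
    simp at hne
  exact (es_univ_of_cliqueFree hfree heven).powerDecay hH n hn F hF

end Pool.Agent.Results.MP_2d96d7_co.K4Free
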