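import Pool.Agent.Lib.MP_2d96d7_co.Defs
import Pool.Agent.Lib.MP_2d96d7_co.Hardest

/-!
Graph-codes: the question is equivalent to its single case `H = K_4`.
-/

namespace Pool.Agent.Results.MP_2d96d7_co.K4Hardest

open Pool.Agent.Lib.MP_2d96d7_co

/-- `K_4` is the hardest graph: `d_H(n)` tends to `0` for all graphs `H` with a positive even
number of edges if and only if `d_{K_4}(n)` tends to `0`. -/
theorem result :
    (∀ (V : Type) [Fintype V] (H : SimpleGraph V), H.edgeSet.Nonempty → Even H.edgeSet.ncard →
      Vanishes H) ↔ Vanishes (⊤ : SimpleGraph (Fin 4)) := by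
  constructor
  · intro h
    refine h (Fin 4) ⊤ ?_ ?_
    · refine ⟨s(0, 1), ?_⟩
      simp
    · have : (⊤ : SimpleGraph (Fin 4)).edgeSet.ncard = 6 := by
        classical
        rw [← SimpleGraph.coe_edgeFinset, Set.ncard_coe_finset,
          SimpleGraph.card_edgeFinset_top_eq_card_choose_two, Fintype.card_fin]
        rfl
      rw [this]
      decide
  · intro h V _ H hne he
    exact hardest h H hne he

end Pool.Agent.Results.MP_2d96d7_co.K4Hardest
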