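import Pool.Agent.Lib.MP_2d96d7_co.Defs
import Pool.Agent.Lib.MP_2d96d7_co.Poly.Mixed

/-!
Graph-codes: structured `H`-codes when `H` has an even number of edges. There is no `H`-code on many
vertices that is given by boundedly many polynomials, and there is no dense one that is given by any
number of conditions, each of which depends on these polynomials, on few pairs and on one form with
coefficients in a finite abelian group.
-/

namespace Pool.Agent.Results.MP_2d96d7_co.PolynomialCodes

open Pool.Agent.Lib.MP_2d96d7_co Pool.Agent.Lib.MP_2d96d7_co.Poly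

/-- Let `H` have a positive even number of edges. Let `P_1, …, P_r` be polynomials over `ℤ/m` of
degree at most `d` in the indicators of the pairs of `[n]`, and let `D` be the family of the graphs
on `[n]` that satisfy every member of a set `Q`, of any size, of conditions, each of which depends
only on the values of `P_1, …, P_r`, on at most `w` pairs and on the value of one form with
coefficients in the finite abelian group `A`. Suppose that all the conditions depend only on the
values of `P_1, …, P_r` or that `D` has density at least `δ`. If `n` is large in terms of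
`H, m, d, r, w, A, δ`, then for a positive proportion of all pairs `(G, f)`, `G` in `D`, `f` an
injection of the vertices of `H` into `[n]`, the symmetric difference of `G` and the copy `f(H)` of
`H` lies in `D` again, and an `H`-code inside `D` misses a positive proportion of `D`. In particular
a non-empty `D` is not an `H`-code. -/
theorem result (V : Type) [Fintype V] (H : SimpleGraph V) (hne : H.edgeSet.Nonempty)
    (he : Even H.edgeSet.ncard) (m d r w : ℕ) (hm : 0 < m) (A : Type) [AddCommGroup A] [Finite A]
    (δ : ℝ) (hδ : 0 < δ) :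
    ∃ N : ℕ, ∃ c : ℝ, 0 < c ∧ ∀ n : ℕ, N ≤ n →
      ∀ P : Fin r → MvPolynomial (Sym2 (Fin n)) (ZMod m), (∀ i, (P i).totalDegree ≤ d) →
      ∀ Q : Set (Set (SimpleGraph (Fin n))), (∀ C ∈ Q, MixedCond P A w C) →
      ∀ D : Finset (SimpleGraph (Fin n)), (∀ G, G ∈ D ↔ ∀ C ∈ Q, G ∈ C) →
      ((∀ C ∈ Q, PolyCond P C) ∨ δ * 2 ^ (n.choose 2) ≤ D.card) →
      c * (D.card * Nat.card (V ↪ Fin n)) ≤
        {p : SimpleGraph (Fin n) × (V ↪ Fin n) |
          p.1 ∈ D ∧ ∃ G' ∈ D, (p.1 \ G') ⊔ (G' \ p.1) = H.map p.2}.ncard ∧
      ∀ F : Finset (SimpleGraph (Fin n)), F ⊆ D → IsCode H F →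
        (F.card : ℝ) ≤ (1 - c) * D.card := by
  obtain ⟨N, K, hK, h⟩ := mixed_diffs H hne he m d r w hm A δ hδ
  have hK' : (0 : ℝ) < K := by exact_mod_cast hK
  refine ⟨max N (Fintype.card V), 1 / (2 * K), by positivity,
    fun n hn P hP Q hQ D hD hdense => ?_⟩
  have h1 := h n ((le_max_left _ _).trans hn) P hP Q hQ D hD hdense
  refine ⟨?_, fun F hFD hF =>
    code_bound H hne ((le_max_right _ _).trans hn) K hK D F h1 hFD hF⟩
  have h2 : (D.card * Nat.card (V ↪ Fin n) : ℝ) ≤ K * ((diffs H D).ncard : ℝ) := by
    exact_mod_cast h1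
  have h3 : (0 : ℝ) ≤ ((diffs H D).ncard : ℝ) := by positivity
  rw [div_mul_eq_mul_div, one_mul, div_le_iff₀ (by positivity)]
  show _ ≤ ((diffs H D).ncard : ℝ) * (2 * K)
  nlinarith

end Pool.Agent.Results.MP_2d96d7_co.PolynomialCodes
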